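import Pool.Agent.Helper63.XP.StA

set_option autoImplicit false

namespace Pool.Agent.Helper39.XP

open Finset
open Pool.Agent.Helper63.XP

/-- the data chosen in one step -/
private structure Out where
  /-- the prime -/
  q0 : ℕ
  /-- first natural number -/
  J : ℕ
  /-- second natural number -/
  Q : ℕ
  /-- third natural number -/
  s0 : ℕ
  /-- the new eps -/
  eps : ℝ
  /-- the new z -/
  z : ℝ
  /-- tau -/
  tau : ℝ
  /-- ha -/
  ha : ℝ
  /-- hc -/
  hc : ℝ

/-- the factor in the condition `cap` -/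
private noncomputable def Bl (lam : ℝ) (l : ℕ) : ℝ := ((lam - 1) / lam) ^ l / 2 ^ (l + 2)

/-- the properties of the data chosen in one step -/
private structure Good (p C K lam A0 x0 : ℝ) (k N0 r e e' : ℕ) (l : ℕ) (z R : ℝ) (o : Out) : Prop where
  hN : N0 ≤ o.q0
  hq : o.q0.Prime
  hJ : r ≤ o.J
  hQ : r.factorial * o.Q < (o.J - r) ^ r
  e0 : 0 < o.eps
  e1 : o.eps ≤ 1
  z0 : 0 < o.z
  z1 : o.z ≤ o.eps
  dec : DecC p (k + 1) o.z o.eps z (2 * (o.q0 ^ e : ℕ)) o.ha o.hc o.tau (o.q0 ^ e) (o.q0 ^ e') o.s0 o.J o.Q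
  flat : C * K * dm p (o.q0 ^ e) (o.q0 ^ e') ≤ o.eps
  err : C * K * dm p (o.q0 ^ e) (o.q0 ^ e') * (8 * k) ≤ 1
  cap1 : A0 * (R * (((o.q0 ^ e : ℕ) : ℝ) / (o.q0 ^ e' : ℕ)) * dm p (o.q0 ^ e) (o.q0 ^ e')) ≤ x0
  cap2 : x0 ≤ Bl lam (l + 1) * o.eps ^ 2 * (R * (((o.q0 ^ e : ℕ) : ℝ) / (o.q0 ^ e' : ℕ)))

/-- the state: eps, z, R -/
private structure Sta where
  /-- eps -/
  eps : ℝ
  /-- z -/
  z : ℝ
  /-- R -/
  R : ℝ

private noncomputable def seq (f : ℕ → ℝ → ℝ → Out) (e e' : ℕ) (ep : ℝ) : ℕ → Sta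
  | 0 => ⟨ep, ep, 1⟩
  | l + 1 =>
    ⟨(f l (seq f e e' ep l).z (seq f e e' ep l).R).eps, (f l (seq f e e' ep l).z (seq f e e' ep l).R).z,
      (seq f e e' ep l).R * ((((f l (seq f e e' ep l).z (seq f e e' ep l).R).q0 ^ e : ℕ) : ℝ) /
        ((f l (seq f e e' ep l).z (seq f e e' ep l).R).q0 ^ e' : ℕ))⟩

theorem hPA2 : StPa2 := by
  intro hpa1 p hp1 hp2
  obtain ⟨r, e, e', hr, he', hee, hstep⟩ := hpa1 p hp1 hp2
  refine ⟨r, e, e', hr, he', hee, ?_⟩
  intro rr C K lam h1 h2 h3 hK N0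
  have hlam : 0 < lam := by linarith
  have hC : 0 < C := by linarith
  have hrr : 0 < rr := by linarith
  have hK0 : 0 < K := by linarith
  have hrt : 0 < lam / C := by positivity
  have hrt1 : lam / C < 1 := by rw [div_lt_one hC]; exact h2
  obtain ⟨n, hn⟩ := exists_pow_lt_of_lt_one (show (0 : ℝ) < 1 / (8 * K) by positivity) hrt1
  obtain ⟨k, hk1, hkn⟩ : ∃ k : ℕ, 1 ≤ k ∧ n ≤ k := ⟨n + 1, by omega, by omega⟩
  have hk0 : (0 : ℝ) < k := by exact_mod_cast hk1
  set A0 : ℝ := (k + 1 : ℝ) * (4 * k * C * K * ((k : ℝ) + 2) ^ 2) with hA0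
  have hA0p : 0 < A0 := by positivity
  set ep : ℝ := min 1 ((C - lam) / (4 * (C * (rr * K)))) with hep
  have hep0 : 0 < ep := by
    apply lt_min one_pos
    apply div_pos (by linarith)
    positivity
  have hep1 : ep ≤ 1 := min_le_left _ _
  have hBp : ∀ l, 0 < Bl lam l := by
    intro l
    unfold Bl
    have : 0 < (lam - 1) / lam := div_pos (by linarith) hlam
    positivity
  set x0 : ℝ := Bl lam 0 * ep ^ 2 with hx0
  have hx0p : 0 < x0 := by
    have := hBp 0
    positivity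
  -- one step
  have hone : ∀ (l : ℕ) (z R : ℝ), ∃ o : Out, 0 < z → 0 < R → Good p C K lam A0 x0 k N0 r e e' l z R o := by
    intro l z R
    by_cases hzR : 0 < z ∧ 0 < R
    · obtain ⟨hz, hR⟩ := hzR
      have hB := hBp (l + 1)
      obtain ⟨c, hc0, hc1, hc2, hc3, hc4⟩ : ∃ c : ℝ, 0 < c ∧ C * K * c ≤ 1 ∧ C * K * c * (8 * k) ≤ 1 ∧
          A0 * R * c ≤ x0 ∧ c * x0 ≤ Bl lam (l + 1) * R := by
        refine ⟨min (1 / (C * K)) (min (1 / (C * K * (8 * k))) (min (x0 / (A0 * R)) (Bl lam (l + 1) * R / x0))),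
          ?_, ?_, ?_, ?_, ?_⟩
        · refine lt_min (by positivity) (lt_min (by positivity) (lt_min (by positivity) (by positivity)))
        · have h := min_le_left (1 / (C * K)) (min (1 / (C * K * (8 * k))) (min (x0 / (A0 * R)) (Bl lam (l + 1) * R / x0)))
          rw [le_div_iff₀ (by positivity)] at h
          linarith
        · have h := (min_le_right (1 / (C * K)) (min (1 / (C * K * (8 * k))) (min (x0 / (A0 * R)) (Bl lam (l + 1) * R / x0)))).trans
            (min_le_left _ _)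
          rw [le_div_iff₀ (by positivity)] at h
          linarith
        · have h := (min_le_right (1 / (C * K)) (min (1 / (C * K * (8 * k))) (min (x0 / (A0 * R)) (Bl lam (l + 1) * R / x0)))).trans
            ((min_le_right _ _).trans (min_le_left _ _))
          rw [le_div_iff₀ (by positivity)] at h
          linarith
        · have h := (min_le_right (1 / (C * K)) (min (1 / (C * K * (8 * k))) (min (x0 / (A0 * R)) (Bl lam (l + 1) * R / x0)))).trans
            ((min_le_right _ _).trans (min_le_right _ _))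
          rw [le_div_iff₀ hx0p] at h
          exact h
      obtain ⟨N, hN⟩ := hstep (k + 1) z c (by linarith) hz hc0
      obtain ⟨q0, hq1, hq2⟩ := Nat.exists_infinite_primes (max N N0)
      obtain ⟨J, Q, s0, ε, ζ, τ, ha, hc, hJ, hQ, hε0, hε1, hζ0, hζ1, hdec, hd1, hd2, hd3, hd4⟩ :=
        hN q0 ((le_max_left _ _).trans hq1)
      have hq0p : (0 : ℝ) < ((q0 ^ e : ℕ) : ℝ) := by
        exact_mod_cast pow_pos hq2.pos e
      have hq0p' : (0 : ℝ) < ((q0 ^ e' : ℕ) : ℝ) := by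
        exact_mod_cast pow_pos hq2.pos e'
      refine ⟨⟨q0, J, Q, s0, ε, ζ, τ, ha, hc⟩, fun _ _ => ?_⟩
      refine ⟨(le_max_right _ _).trans hq1, hq2, hJ, hQ, hε0, hε1, hζ0, hζ1, hdec, ?_, ?_, ?_, ?_⟩
      · calc C * K * dm p (q0 ^ e) (q0 ^ e') ≤ C * K * (c * ε) := by
              apply mul_le_mul_of_nonneg_left hd1 (by positivity)
          _ = (C * K * c) * ε := by ring
          _ ≤ 1 * ε := by gcongr
          _ = ε := one_mul _
      · calc C * K * dm p (q0 ^ e) (q0 ^ e') * (8 * k) ≤ C * K * c * (8 * k) := by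
              apply mul_le_mul_of_nonneg_right _ (by positivity)
              apply mul_le_mul_of_nonneg_left hd2 (by positivity)
          _ ≤ 1 := hc2
      · calc A0 * (R * (((q0 ^ e : ℕ) : ℝ) / (q0 ^ e' : ℕ)) * dm p (q0 ^ e) (q0 ^ e'))
            = A0 * R * ((((q0 ^ e : ℕ) : ℝ) / (q0 ^ e' : ℕ)) * dm p (q0 ^ e) (q0 ^ e')) := by ring
          _ ≤ A0 * R * c := by
              apply mul_le_mul_of_nonneg_left hd3 (by positivity)
          _ ≤ x0 := hc3
      · calc x0 = x0 * 1 := (mul_one _).symm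
          _ ≤ x0 * (c * (ε ^ 2 * (((q0 ^ e : ℕ) : ℝ) / (q0 ^ e' : ℕ)))) := by
              apply mul_le_mul_of_nonneg_left hd4 hx0p.le
          _ = (c * x0) * (ε ^ 2 * (((q0 ^ e : ℕ) : ℝ) / (q0 ^ e' : ℕ))) := by ring
          _ ≤ (Bl lam (l + 1) * R) * (ε ^ 2 * (((q0 ^ e : ℕ) : ℝ) / (q0 ^ e' : ℕ))) := by
              apply mul_le_mul_of_nonneg_right hc4 (by positivity)
          _ = Bl lam (l + 1) * ε ^ 2 * (R * (((q0 ^ e : ℕ) : ℝ) / (q0 ^ e' : ℕ))) := by ring
    · exact ⟨⟨0, 0, 0, 0, 0, 0, 0, 0, 0⟩, fun hz hR => absurd ⟨hz, hR⟩ hzR⟩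
  choose f hf using hone
  set s : ℕ → Sta := seq f e e' ep with hs
  have hpos : ∀ l, 0 < (s l).z ∧ 0 < (s l).R := by
    intro l
    induction l with
    | zero => exact ⟨hep0, one_pos⟩
    | succ l ih =>
      have hg := hf l (s l).z (s l).R ih.1 ih.2
      refine ⟨hg.z0, ?_⟩
      show 0 < (s l).R * ((((f l (s l).z (s l).R).q0 ^ e : ℕ) : ℝ) / ((f l (s l).z (s l).R).q0 ^ e' : ℕ))
      have hp := hg.hq.pos
      have hq0p : (0 : ℝ) < (((f l (s l).z (s l).R).q0 ^ e : ℕ) : ℝ) := by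
        exact_mod_cast pow_pos hp e
      have hq0p' : (0 : ℝ) < (((f l (s l).z (s l).R).q0 ^ e' : ℕ) : ℝ) := by
        exact_mod_cast pow_pos hp e'
      have := ih.2
      positivity
  have hg : ∀ l, Good p C K lam A0 x0 k N0 r e e' l (s l).z (s l).R (f l (s l).z (s l).R) :=
    fun l => hf l _ _ (hpos l).1 (hpos l).2
  set o : ℕ → Out := fun l => f l (s l).z (s l).R with ho
  have hR : ∀ l, Rr (fun l => (o l).q0 ^ e) (fun l => (o l).q0 ^ e') l = (s l).R := by
    intro l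
    induction l with
    | zero =>
      show Rr (fun l => (o l).q0 ^ e) (fun l => (o l).q0 ^ e') 0 = 1
      unfold Rr
      simp
    | succ l ih =>
      unfold Rr at ih ⊢
      rw [prod_range_succ, ih]
      rfl
  have heps : ∀ l, 0 < (s l).eps ∧ (s l).eps ≤ 1 := by
    intro l
    cases l with
    | zero => exact ⟨hep0, hep1⟩
    | succ l => exact ⟨(hg l).e0, (hg l).e1⟩
  have hz : ∀ l, 0 < (s l).z ∧ (s l).z ≤ (s l).eps := by
    intro l
    cases l with
    | zero => exact ⟨hep0, le_rfl⟩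
    | succ l => exact ⟨(hg l).z0, (hg l).z1⟩
  refine ⟨k, fun l => (o l).q0, fun l => (o l).J, fun l => (o l).Q, fun l => (o l).s0, fun l => (s l).eps,
    fun l => (s l).z, fun l => (o l).tau, fun l => (o l).ha, fun l => (o l).hc, hk1, ?_, ?_⟩
  · intro l
    exact ⟨(hg l).hN, (hg l).hq, (hg l).hJ, (hg l).hQ⟩
  · refine ⟨?_, fun l _ => heps l, fun l _ => hz l, ?_, fun l _ => (hg l).flat, fun l _ => (hg l).err,
      fun l _ => (hg l).dec, ?_, ?_⟩
    · intro l
      have hp := (hg l).hq.pos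
      exact ⟨Nat.one_le_iff_ne_zero.2 (pow_pos hp e').ne', Nat.pow_le_pow_right hp hee.le⟩
    · have e0 : ep ≤ (C - lam) / (4 * (C * (rr * K))) := min_le_right _ _
      rw [le_div_iff₀ (by positivity)] at e0
      show ep * (C * (rr * K)) ≤ (C - lam) / 4
      linarith
    · intro l _ l' _
      have c1 : (k + 1 : ℝ) * (4 * k * C * K * ((k : ℝ) + 2) ^ 2) *
          (Rr (fun l => (o l).q0 ^ e) (fun l => (o l).q0 ^ e') (l' + 1) * dm p ((o l').q0 ^ e) ((o l').q0 ^ e')) ≤ x0 := by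
        rw [hR]
        exact (hg l').cap1
      have c2 : x0 ≤ (((lam - 1) / lam) ^ l / 2 ^ (l + 2)) * (s l).eps ^ 2 *
          Rr (fun l => (o l).q0 ^ e) (fun l => (o l).q0 ^ e') l := by
        rw [hR]
        cases l with
        | zero =>
          show Bl lam 0 * ep ^ 2 ≤ Bl lam 0 * ep ^ 2 * 1
          rw [mul_one]
        | succ l => exact (hg l).cap2
      exact c1.trans c2
    · have h4 : (lam / C) ^ k ≤ (lam / C) ^ n := pow_le_pow_of_le_one hrt.le hrt1.le hkn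
      have h5 : (lam / C) ^ k ≤ 1 / (8 * K) := h4.trans hn.le
      calc (lam / C) ^ k * (8 * K) ≤ 1 / (8 * K) * (8 * K) := by gcongr
        _ = 1 := by field_simp

end Pool.Agent.Helper39.XP
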